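import Pool.Agent.Helper89.NUM.Num

/-! INFORMATION INCREMENTS INCREASE WITH THE LEVEL: the information of a label `l'` given a label `l` about the cells of
level `e` of a point is monotone in `e`. -/

set_option autoImplicit false

namespace Pool.Agent.Helper89.NUM

open Finset Filter Topology Matrix Pool.Agent.Helper69.RK Pool.Agent.Helper31.EC Pool.Agent.Helper31.EC.Sp
open Pool.Agent.Helper40.EL Pool.Agent.Helper89.LX Pool.Agent.Helper84.MT
open Pool.Agent.Helper52.GF (H_pcr)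
open Pool.Agent.Helper29.MX

noncomputable section

variable {S T : Sp} {M D d g : ℕ} {E : ℕ → ℕ} {ι κ : Type}

/-- finite spaces -/
theorem inc_fl {F : FSp} (l l' : FLab F) (x x' : FL F) :
    Pool.Agent.Helper31.EC.h (l.p.map x) l.v - Pool.Agent.Helper31.EC.h ((l.join l').p.map x) (l.join l').v ≤
      Pool.Agent.Helper31.EC.h (l.p.map x') l.v - Pool.Agent.Helper31.EC.h ((l.join l').p.map x') (l.join l').v +
        Pool.Agent.Helper31.EC.h x x' := by
  rw [FLab.join_map, FLab.join_map, FLab.join_v]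
  have e1 : ∀ x : FL F, Pool.Agent.Helper31.EC.h (l.p.map x) l.v =
      Pool.Agent.Helper31.EC.h ((l.am l').p1.map (l.p.map x)) ((l.am l').p1.map l.v) := fun x =>
    ((l.am l').p1.h_map _ _).symm
  rw [e1 x, e1 x']
  have e3 : Pool.Agent.Helper31.EC.h x x' =
      Pool.Agent.Helper31.EC.h ((l.am l').p1.map (l.p.map x)) ((l.am l').p1.map (l.p.map x')) := by
    rw [(l.am l').p1.h_map, l.p.h_map]
  rw [e3]
  set a := (l.am l').p1.map (l.p.map x)
  set a' := (l.am l').p1.map (l.p.map x')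
  set v := (l.am l').p1.map l.v
  set w := (l.am l').p2.map l'.v
  have h1 : Pool.Agent.Helper31.EC.I a w v = Pool.Agent.Helper31.EC.h a v - Pool.Agent.Helper31.EC.h a (v ⊔ w) := by
    rw [I_eq, sup_comm]
  have h2 : Pool.Agent.Helper31.EC.I a' w v = Pool.Agent.Helper31.EC.h a' v - Pool.Agent.Helper31.EC.h a' (v ⊔ w) := by
    rw [I_eq, sup_comm]
  have h3 : Pool.Agent.Helper31.EC.I a w v ≤ Pool.Agent.Helper31.EC.I (a' ⊔ a) w v :=
    I_mono_left (le_sup_right.trans le_sup_left)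
  have h4 := I_chain a' a w v
  have h5 := I_le_h_left a w (a' ⊔ v)
  have h6 : Pool.Agent.Helper31.EC.h a (a' ⊔ v) ≤ Pool.Agent.Helper31.EC.h a a' := h_anti le_sup_left
  have h7 : Pool.Agent.Helper31.EC.h a v - Pool.Agent.Helper31.EC.h a (v ⊔ w) ≤
      Pool.Agent.Helper31.EC.h a' v - Pool.Agent.Helper31.EC.h a' (v ⊔ w) + Pool.Agent.Helper31.EC.h a a' := by
    linarith
  exact h7

theorem UB_pcr (Q : S.VV M) (r : ℝ) (l : Lab S) :
    UB (fun k => Pool.Agent.Helper31.EC.h ((l k).p.map (pcr Q r k)) (l k).v / (S.F k).n) := by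
  refine UB.sandwich (UB_const 0) (rpI_Bd (Q.bdd r).toInf) ?_ ?_
  · exact Eventually.of_forall fun k => div_nonneg (h_nonneg _ _) (S.F k).pos.le
  · refine Eventually.of_forall fun k => div_le_div_of_nonneg_right ?_ (S.F k).pos.le
    rw [← (l k).p.H_map]
    exact h_le_H _ _

/-- INFORMATION INCREMENTS -/
theorem inc_lev (Q : S.VV M) (l l' : Lab S) {e e' : ℝ} (hee : e ≤ e') :
    H (up1 l (Q.dg e)) - H (up1 (l.join l') (Q.dg e)) ≤ H (up1 l (Q.dg e')) - H (up1 (l.join l') (Q.dg e')) := by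
  rw [H_pcr, H_pcr, H_pcr, H_pcr]
  have hU := UB_pcr Q e l
  have hU' := UB_pcr Q e' l
  have hJ := UB_pcr Q e (l.join l')
  have hJ' := UB_pcr Q e' (l.join l')
  have hP : PLe (pcr Q e) (pcr Q e') := PLe_cell_cell Q hee _ fun k => le_rfl
  have hN : Tendsto (fun k => Pool.Agent.Helper31.EC.h (pcr Q e k) (pcr Q e' k) / (S.F k).n) UF (𝓝 0) := hP
  have h0 := ul_eq hN
  have hUN := UB_of_tendsto hN
  have h1 := ul_mono (hU.add hJ') ((hU'.add hJ).add hUN) (Eventually.of_forall fun k => by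
    have h2 := inc_fl (l k) (l' k) (pcr Q e k) (pcr Q e' k)
    have hn := (S.F k).pos
    have e1 : (l.join l') k = (l k).join (l' k) := rfl
    rw [e1, ← add_div, ← add_div, ← add_div]
    exact div_le_div_of_nonneg_right (by linarith) hn.le)
  rw [ul_add hU hJ', ul_add (hU'.add hJ) hUN, ul_add hU' hJ, h0] at h1
  linarith

end

end Pool.Agent.Helper89.NUM
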