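import Pool.Agent.Helper89.NUM.Ord
import Pool.Agent.Helper89.NUM.Inc
import Pool.Agent.Helper87.NSL.Cla
import Pool.Agent.Helper15.FST.St

/-! ROW [NUM] of Helper15/FST/St: the numbers of a robust class. -/

set_option autoImplicit false

namespace Pool.Agent.Helper89.NUM

open Finset Filter Topology Matrix Pool.Agent.Helper69.RK Pool.Agent.Helper31.EC Pool.Agent.Helper31.EC.Sp
open Pool.Agent.Helper40.EL Pool.Agent.Helper89.LX Pool.Agent.Helper84.MT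
open Pool.Agent.Helper49.MD Pool.Agent.Helper36.AM
open Pool.Agent.Helper52.GF (H_pcr)
open Pool.Agent.Helper3.LF (Mon gam lb)
open Pool.Agent.Helper29.MX
open Pool.Agent.Helper15.FST (Tri Ety UL HL FC Mem ROW_LVF ROW_EXH ROW_KAP ROW_LEV ROW_NUM)

noncomputable section

variable {S T : Sp} {M N D d g : ℕ} {E : ℕ → ℕ} {ι κ : Type}

/-! ### least entropies -/

theorem HL_bdd (s : MSys S N E ι) (r c : ℝ) : BddBelow {v | ∃ l : Lab S, TLb s c l ∧ v = H (up1 l (s.Q.dg r))} := by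
  refine ⟨0, ?_⟩
  rintro v ⟨l, -, rfl⟩
  exact H_nonneg _

theorem HL_le {s : MSys S N E ι} {r c : ℝ} {l : Lab S} (hl : TLb s c l) : HL s r c ≤ H (up1 l (s.Q.dg r)) :=
  csInf_le (HL_bdd s r c) ⟨l, hl, rfl⟩

theorem TLb_tr (s : MSys S N E ι) (c : ℝ) : TLb s c (fun k => FLab.triv (S.F k)) := fun i =>
  (Lab.DM_triv ((s.lf i).win c) ((s.lf i).win c)).1

theorem le_HL {s : MSys S N E ι} {r c v : ℝ} (h : ∀ l : Lab S, TLb s c l → v ≤ H (up1 l (s.Q.dg r))) :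
    v ≤ HL s r c := by
  refine le_csInf ⟨_, _, TLb_tr s c, rfl⟩ ?_
  rintro w ⟨l, hl, rfl⟩
  exact h l hl

theorem TLb_mono {s : MSys S N E ι} {c c' : ℝ} (h : c ≤ c') {l : Lab S} (hl : TLb s c l) : TLb s c' l := fun i =>
  Pool.Agent.Helper81.CPY.nul_leak_mono ((s.lf i).win_mono h) (hl i)

theorem HL_anti (s : MSys S N E ι) (r : ℝ) {c c' : ℝ} (h : c ≤ c') : HL s r c' ≤ HL s r c :=
  le_HL fun _ hl => HL_le (TLb_mono h hl)

theorem TLb_join {s : MSys S N E ι} {c : ℝ} {l l' : Lab S} (h : TLb s c l) (h' : TLb s c l') : TLb s c (l.join l') :=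
  fun i => ((h i).add (h' i)).of_le (Eventually.of_forall fun k => ((l.join l') k).leak_nonneg _)
    (Eventually.of_forall fun k => (l k).join_leak (l' k) ((s.lf i).win c k))

/-- counting -/
theorem HL_le_volKO [Finite ι] (s : MSys S N E ι) (c : ℝ) : HL s 1 c ≤ volKO s (rbot S) c := by
  have h1 := HK_le_volKO s (rbot S) c
  refine le_trans ?_ h1
  refine le_csInf ⟨_, _, KLb_tr s (rbot S) c, rfl⟩ ?_
  rintro w ⟨l, hl, rfl⟩
  exact HL_le ((tlb_iff s c l).mp hl)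

theorem HL_nonneg (s : MSys S N E ι) (r c : ℝ) : 0 ≤ HL s r c := le_HL fun _ _ => H_nonneg _

/-- maximal labels have the same entropies as their joins with labels of the window -/
theorem H_join_le (l l' : Lab S) (Q : S.VV N) (e : ℝ) : H (up1 (l.join l') (Q.dg e)) ≤ H (up1 l' (Q.dg e)) := by
  rw [H_pcr, H_pcr]
  refine ul_mono (UB_pcr Q e _) (UB_pcr Q e _) (Eventually.of_forall fun k => ?_)
  refine div_le_div_of_nonneg_right ?_ (S.F k).pos.le
  show Pool.Agent.Helper31.EC.h (((l k).join (l' k)).p.map (pcr Q e k)) ((l k).join (l' k)).v ≤ _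
  rw [FLab.join_map, FLab.join_v, FLab.am_map]
  have e1 : Pool.Agent.Helper31.EC.h ((l' k).p.map (pcr Q e k)) (l' k).v =
      Pool.Agent.Helper31.EC.h (((l k).am (l' k)).p2.map ((l' k).p.map (pcr Q e k))) (((l k).am (l' k)).p2.map (l' k).v) :=
    (((l k).am (l' k)).p2.h_map _ _).symm
  rw [e1]
  exact h_anti le_sup_right

/-- UNIT DIRECTIONS: the entropies over type-labels -/
theorem ud_H {s : MSys S N E ι} {i : ι} {v : ℕ} (hu : Ud v s i) {c e : ℝ} (h0 : 0 ≤ c) (h1 : c ≤ e) (h2 : e ≤ 1)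
    {l : Lab S} (hl : TLb s c l) : v * (e - c) ≤ H (up1 l (s.Q.dg e)) := by
  rw [H_pcr]
  apply le_of_forall_pos_le_add
  intro ε hε
  have h3 := Pool.Agent.Helper87.NSL.Ud_self hu h0 h1 h2 ε hε
  have hN : Tendsto (fun k => (l k).leak ((s.lf i).win c k) / (S.F k).n) UF (𝓝 0) := hl i
  have hU := UB_pcr s.Q e l
  have h4 := const_le_ul ((hU.add (UB_of_tendsto hN)).add (UB_const ε)) (c := v * (e - c)) (by
    filter_upwards [h3] with k hk
    have hn := (S.F k).pos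
    have h5 : Pool.Agent.Helper31.EC.h (fc (Setoid.ker (s.Q.cellv e k))) ((s.lf i).win c k) ≤
        Pool.Agent.Helper31.EC.h ((l k).p.map (pcr s.Q e k)) (l k).v + (l k).leak ((s.lf i).win c k) := by
      have h6 : Pool.Agent.Helper31.EC.h (fc (Setoid.ker (s.Q.cellv e k))) ((s.lf i).win c k) =
          Pool.Agent.Helper31.EC.h ((l k).p.map (pcr s.Q e k)) ((l k).p.map ((s.lf i).win c k)) :=
        ((l k).p.h_map _ _).symm
      rw [h6]
      set x := (l k).p.map (pcr s.Q e k)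
      set w := (l k).p.map ((s.lf i).win c k)
      have h7 : Pool.Agent.Helper31.EC.I (l k).v x w ≤ Pool.Agent.Helper31.EC.I (l k).v (l k).p.top w :=
        I_mono_right ((((l k).p.map_le_top _)).trans le_sup_left)
      have h8 : Pool.Agent.Helper31.EC.I (l k).v x w = Pool.Agent.Helper31.EC.h x w -
          Pool.Agent.Helper31.EC.h x ((l k).v ⊔ w) := I_eq' _ _ _
      have h9 : Pool.Agent.Helper31.EC.h x ((l k).v ⊔ w) ≤ Pool.Agent.Helper31.EC.h x (l k).v := h_anti le_sup_left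
      have h10 : (l k).leak ((s.lf i).win c k) = Pool.Agent.Helper31.EC.I (l k).v (l k).p.top w := rfl
      linarith
    have h11 : (v * (e - c) - ε) * (S.F k).n ≤ Pool.Agent.Helper31.EC.h ((l k).p.map (pcr s.Q e k)) (l k).v +
        (l k).leak ((s.lf i).win c k) := hk.trans h5
    rw [← add_div, ← sub_le_iff_le_add, le_div_iff₀ hn]
    exact h11)
  rw [ul_add (hU.add (UB_of_tendsto hN)) (UB_const ε), ul_add hU (UB_of_tendsto hN), ul_eq hN, ul_const, add_zero] at h4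
  exact h4

/-! ### members -/

section mem

variable {A : MCl N} {C : ℕ → MCl N} {m v g r : ℕ} {i j : Fin r} {L : Set ℝ} {u h : ℝ → ℝ → ℝ} {V : ℝ → ℝ → ℕ → ℝ}
  {P : (KM N (Fin r)).Pd}

set_option linter.unusedSectionVars false

theorem mem_im (hC : Okc N A C) (hP : Cls P) {S : Sp} {s : MSys S N (lin g) (Fin r)} (hs : Mem C m v g r i j P S s)
    {T : Sp} (p : Pj T S) (B : ∀ k, (T.F k).Ω → Prop) (hB : 0 < ul (T.pr B)) :
    Mem C m v g r i j P (Sp.im p B) (s.im p B hB) :=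
  ⟨⟨⟨hC.im m S g r s hs.1.1.1 T p B hB, Pool.Agent.Helper3.ENT.inv_im hs.1.1.2 p B hB⟩,
    Pool.Agent.Helper3.ENT.Tri.im hs.1.2 p B hB⟩,
    hP.im S (ob s) hs.2 T p B hB⟩

theorem mem_ne (hF : FC C m v g r i j L u h V P) : ∃ (S : Sp) (s : MSys S N (lin g) (Fin r)), Mem C m v g r i j P S s := by
  obtain ⟨S, x, hx⟩ := hF.cls.ne
  obtain ⟨s, e, hs⟩ := hF.ety S x hx
  refine ⟨S, s, hs, hF.cls.ev S x (ob s) ?_ hx⟩
  filter_upwards [e] with k hk
  exact hk.symm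

variable (hF : FC C m v g r i j L u h V P) (hL : ∀ e : ℚ, (0 : ℝ) < e → (e : ℝ) ≤ 1 → (e : ℝ) ∈ L)

include hF hL

theorem one_mem : (1 : ℝ) ∈ L := by
  have h1 := hL 1 (by norm_num) (by norm_num)
  rwa [Rat.cast_one] at h1

/-- the total exponent of a member -/
theorem u_one (hLEV : ROW_LEV) {S : Sp} {s : MSys S N (lin g) (Fin r)} (hs : Mem C m v g r i j P S s) {c : ℝ}
    (h0 : 0 ≤ c) (h1 : c ≤ 1) : u 1 c = N - volKO s (rbot S) c := by
  rw [← hF.ul S s hs 1 (one_mem hF hL) one_pos le_rfl c h0 h1]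
  exact (hLEV S N g r s).1 c h0 h1

theorem h_one {S : Sp} {s : MSys S N (lin g) (Fin r)} (hs : Mem C m v g r i j P S s) {c : ℝ}
    (h0 : 0 ≤ c) (h1 : c ≤ 1) : h 1 c = HL s 1 c := (hF.hl S s hs 1 (one_mem hF hL) one_pos le_rfl c h0 h1).symm

theorem num_rc (hst : ∀ m, m < N → STu m) (hLEV : ROW_LEV) {c : ℝ} (h0 : 0 ≤ c) (h1 : c < 1) :
    ContinuousWithinAt (u 1) (Set.Ioi c) c := by
  obtain ⟨S, s, hs⟩ := mem_ne hF
  have h2 := tot_rcT hst hs.1.2 h0 h1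
  have e : ∀ c' : ℝ, 0 ≤ c' → c' ≤ 1 → u 1 c' = Pool.Agent.Helper94.SEL.tot s (rbot S) c' := fun c' a b =>
    u_one hF hL hLEV hs a b
  refine h2.congr_of_eventuallyEq ?_ (e c h0 h1.le)
  filter_upwards [Ioo_mem_nhdsGT h1] with c' hc'
  exact e c' (h0.trans hc'.1.le) hc'.2.le

theorem num_spd (hst : ∀ m, m < N → STu m) (hg : 1 ≤ g) (hLEV : ROW_LEV) (hLVF : ROW_LVF) {e c c' : ℝ} (heL : e ∈ L)
    (he : 0 < e) (he1 : e < 1) (h0 : 0 ≤ c) (hce : c ≤ e) (hcc : c ≤ c') (h1 : c' ≤ 1) (hu : u e c = u 1 c) :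
    N * min (c' - c) (1 - e) ≤ u 1 c' - u 1 c := by
  obtain ⟨S, s, hs⟩ := mem_ne hF
  obtain ⟨D, hD1, hD⟩ := hLVF N g r hg hst
  have hc1 : c < 1 := hce.trans_lt he1
  have h2 : UL s 1 c ≤ UL s e c := by
    rw [hF.ul S s hs e heL he he1.le c h0 hce, hF.ul S s hs 1 (one_mem hF hL) one_pos le_rfl c h0 hc1.le, hu]
  obtain ⟨y, hy, hv, hG⟩ := hD S s e c he he1 h0 hce h2
  have hv' : vol s.Q D y = volKO s (rbot S) c := le_antisymm hv (volKO_le_of hy)
  have h3 := volKO_speedG s (pt_bot s) hD1 h0 hc1 hcc hy hv' hG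
  rw [u_one hF hL hLEV hs (h0.trans hcc) h1, u_one hF hL hLEV hs h0 hc1.le]
  linarith

theorem num_u1 (hLEV : ROW_LEV) : u 1 1 = N := by
  obtain ⟨S, s, hs⟩ := mem_ne hF
  have h2 := u_one hF hL hLEV hs zero_le_one le_rfl
  have h3 := tot_ge (pt_bot s) zero_le_one le_rfl
  have h4 := volKO_nonneg s (rbot S) 1
  have h5 : (N : ℝ) * 1 ≤ N - volKO s (rbot S) 1 := h3
  rw [h2]
  linarith

theorem num_h1 (hLEV : ROW_LEV) : h 1 1 = 0 := by
  obtain ⟨S, s, hs⟩ := mem_ne hF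
  have h2 := h_one hF hL hs zero_le_one le_rfl
  have h3 := HL_le_volKO s 1
  have h4 := HL_nonneg s 1 1
  have h5 := num_u1 hF hL hLEV
  have h6 := u_one hF hL hLEV hs zero_le_one le_rfl
  linarith

theorem num_h_anti {e c c' : ℝ} (heL : e ∈ L) (he : 0 < e) (he1 : e ≤ 1) (h0 : 0 ≤ c) (hcc : c ≤ c') (h1 : c' ≤ 1) :
    h e c' ≤ h e c := by
  obtain ⟨S, s, hs⟩ := mem_ne hF
  rw [← hF.hl S s hs e heL he he1 c h0 (hcc.trans h1), ← hF.hl S s hs e heL he he1 c' (h0.trans hcc) h1]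
  exact HL_anti s e hcc

theorem num_inc (hKAP : ROW_KAP) {e e' c c' : ℝ} (heL : e ∈ L) (heL' : e' ∈ L) (he : 0 < e) (hee : e ≤ e') (he1 : e' ≤ 1)
    (h0 : 0 ≤ c) (hcc : c ≤ c') (h1 : c' ≤ 1) : h e c - h e c' ≤ h e' c - h e' c' := by
  obtain ⟨S, s, hs⟩ := mem_ne hF
  rw [← hF.hl S s hs e heL he (hee.trans he1) c h0 (hcc.trans h1),
    ← hF.hl S s hs e heL he (hee.trans he1) c' (h0.trans hcc) h1,
    ← hF.hl S s hs e' heL' (he.trans_le hee) he1 c h0 (hcc.trans h1),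
    ← hF.hl S s hs e' heL' (he.trans_le hee) he1 c' (h0.trans hcc) h1]
  obtain ⟨a1, a2⟩ := hKAP N g r i j S s hs.1.2 c (s.kap c) h0 (hcc.trans h1) (s.kap_isKap c)
  obtain ⟨b1, b2⟩ := hKAP N g r i j S s hs.1.2 c' (s.kap c') (h0.trans hcc) h1 (s.kap_isKap c')
  have a3 : TLb s c' ((s.kap c).join (s.kap c')) := TLb_join (TLb_mono hcc a1) b1
  have key : ∀ e : ℝ, 0 < e → e ≤ 1 → HL s e c = H (up1 (s.kap c) (s.Q.dg e)) ∧
      HL s e c' = H (up1 ((s.kap c).join (s.kap c')) (s.Q.dg e)) := fun e p q =>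
    ⟨le_antisymm (HL_le a1) (a2 e p q), le_antisymm (HL_le a3)
      ((H_join_le _ _ s.Q e).trans (b2 e p q))⟩
  rw [(key e he (hee.trans he1)).1, (key e he (hee.trans he1)).2, (key e' (he.trans_le hee) he1).1,
    (key e' (he.trans_le hee) he1).2]
  exact inc_lev s.Q _ _ hee

theorem num_ud {e c : ℝ} (heL : e ∈ L) (he : 0 < e) (he1 : e ≤ 1) (h0 : 0 ≤ c) (hce : c ≤ e) :
    v * (e - c) ≤ h e c := by
  obtain ⟨S, s, hs⟩ := mem_ne hF
  rw [← hF.hl S s hs e heL he he1 c h0 (hce.trans he1)]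
  exact le_HL fun l hl => ud_H (hs.1.1.2.2 i) h0 hce he1 hl

theorem num_sat (hC : Okc N A C) (hst : ∀ m, m < N → STu m) (hg : 1 ≤ g) (hN : 1 ≤ N) (hLEV : ROW_LEV)
    (hEXH : ROW_EXH) {c : ℝ} (h0 : 0 ≤ c) (h1 : c < 1) (hu : ∀ e : ℚ, c < e → (e : ℝ) < 1 → u e c < u 1 c) :
    N - u 1 c ≤ h 1 c := by
  obtain ⟨S, s, hs⟩ := mem_ne hF
  obtain ⟨D, hD1, hD⟩ := hEXH N g r hg hN hst
  apply le_of_forall_pos_le_add
  intro δ hδ
  obtain ⟨e, he, he1⟩ := exists_rat_btwn (show max c (1 - δ) < 1 from max_lt h1 (by linarith))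
  have hce : c < e := (le_max_left _ _).trans_lt he
  have hde : 1 - (e : ℝ) < δ := by
    have := (le_max_right c (1 - δ)).trans_lt he
    linarith
  have he0 : (0 : ℝ) < e := h0.trans_lt hce
  have h2 : UL s e c < UL s 1 c := by
    rw [hF.ul S s hs e (hL e he0 he1.le) he0 he1.le c h0 hce.le,
      hF.ul S s hs 1 (one_mem hF hL) one_pos le_rfl c h0 h1.le]
    exact hu e hce he1
  obtain ⟨B, hB, x, hx, hxl⟩ := hD D le_rfl S s e c δ he0 he1 hde h0 hce.le h2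
  have hs' := mem_im hC hF.cls hs (Pj.id S) B hB
  have h3 := u_one hF hL hLEV hs' h0 h1.le
  have h4 := h_one hF hL hs' h0 h1.le
  have h5 : volKO (s.im (Pj.id S) B hB) (rbot _) c ≤ vol (s.im (Pj.id S) B hB).Q D x := volKO_le_of hx
  have h6 : vol (s.im (Pj.id S) B hB).Q D x - δ ≤ HL (s.im (Pj.id S) B hB) 1 c := le_HL fun l hl => by
    have := hxl l hl
    linarith
  linarith

end mem

/-- ROW [NUM] -/
theorem row_num (hLEV : ROW_LEV) (hLVF : ROW_LVF) (hEXH : ROW_EXH) (hKAP : ROW_KAP) (N : ℕ) : ROW_NUM N := by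
  intro A C hC hst m v g r i j L u h V P hg hN hF hL
  refine ⟨fun c h0 h1 => num_rc hF hL hst hLEV h0 h1, ?_, num_u1 hF hL hLEV, num_h1 hF hL hLEV, ?_, ?_, ?_, ?_⟩
  · intro e heL c c' he he1 h0 hce hcc h1 hu
    exact num_spd hF hL hst hg hLEV hLVF heL he he1 h0 hce hcc h1 hu
  · intro e heL c c' he he1 h0 hcc h1
    exact num_h_anti hF hL heL he he1 h0 hcc h1
  · intro e heL e' heL' c c' he hee he1 h0 hcc h1
    exact num_inc hF hL hKAP heL heL' he hee he1 h0 hcc h1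
  · intro e heL c he he1 h0 hce
    exact num_ud hF hL heL he he1 h0 hce
  · intro c h0 h1 hu
    exact num_sat hF hL hC hst hg hN hLEV hEXH h0 h1 hu

end

end Pool.Agent.Helper89.NUM
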