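import Pool.Agent.Helper15.FST.St
import Pool.Agent.Helper71.VIS.Trx
import Pool.Agent.Helper84.SEL.Numx
import Pool.Agent.Helper66.NJ.Cnt

/-! [FACL]: the class of the systems with a linear total exponent (`FA`, error `0`) is closed under events of extensions
and slow diagonals. -/

set_option autoImplicit false

namespace Pool.Agent.Helper89.NUM

open Finset Filter Topology Matrix Pool.Agent.Helper69.RK Pool.Agent.Helper31.EC Pool.Agent.Helper31.EC.Sp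
open Pool.Agent.Helper40.EL Pool.Agent.Helper89.LX Pool.Agent.Helper84.MT
open Pool.Agent.Helper49.MD Pool.Agent.Helper36.AM
open Pool.Agent.Helper3.LF (Mon)
open Pool.Agent.Helper29.MX
open Pool.Agent.Helper47.FN (KR lftR obR)
open Pool.Agent.Helper66.NJ
open Pool.Agent.Helper52.MW (im_imR AllE_im)
open Pool.Agent.Helper15.FST
open Pool.Agent.Helper94.SEL (BK Cl2 tot num)

noncomputable section

variable {S T : Sp} {M : ℕ} {E : ℕ → ℕ} {ι : Type}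

/-- functions of triples do not see equalities of triples -/
theorem sig_fun {β : Type} (f : ∀ S : Sp, MSys S M E ι → Rsl S → β) {s : MSys S M E ι} {R : Rsl S} {t : MSys T M E ι}
    {R' : Rsl T} (h : (⟨S, s, R⟩ : Σ S : Sp, MSys S M E ι × Rsl S) = ⟨T, t, R'⟩) : f S s R = f T t R' := by
  cases h
  rfl

/-- LITERAL FORMS ON EVENTS (helper77) -/
def LIT (M : ℕ) : Prop := ∀ (A : MCl (M + 1)) (C : ℕ → MCl (M + 1)), Okc (M + 1) A C → ∀ (m v g r e0 D : ℕ) (b0 : ℝ)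
  (S : Sp) (s : MSys S (M + 1) (lin g) (Fin r)), 1 ≤ D → BK (C m) v g r e0 b0 S s (rbot S) → ∀ (c : ℝ), 0 ≤ c → c < b0 →
    ∀ (W : Rsl S) (x : ∀ k, FD (S.F k) (Mon (M + 1) D)), (∀ k, (x k).l = Lab.ofZ W k) → KAd s (rbot S) D c x →
      vol s.Q D x ≤ volKO s (rbot S) c → ∀ (T : Sp) (q : Pj T S) (B : ∀ k, (T.F k).Ω → Prop) (hB : 0 < ul (T.pr B)),
        ∃ x' : ∀ k, FD ((Sp.im q B).F k) (Mon (M + 1) D), (∀ k, (x' k).l = Lab.ofZ (S := Sp.im q B) W k) ∧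
          KAd (s.im q B hB) (rbot _) D c x' ∧ vol (s.im q B hB).Q D x' ≤ volKO s (rbot S) c

/-- the total exponent on events -/
theorem bk_tot {C : MCl (M + 1)} {v g r e0 : ℕ} {b0 : ℝ} {s : MSys S (M + 1) (lin g) (Fin r)} {R : Rsl S}
    (h : BK C v g r e0 b0 S s R) (q : Pj T S) (B : ∀ k, (T.F k).Ω → Prop) (hB : 0 < ul (T.pr B)) {c : ℝ} (h0 : 0 ≤ c)
    (hc : c < b0) : tot (s.im q B hB) R c = tot s R c := by
  have h1 := h.rig T q B hB c h0 hc (M + 1) le_rfl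
  have h2 := (Pool.Agent.Helper84.SEL.numx M).last _ _ _ (s.im q B hB) R c
  have h3 := (Pool.Agent.Helper84.SEL.numx M).last _ _ _ s R c
  rw [← h2, ← h3]
  exact h1

/-- volumes on events -/
theorem bk_volKO {C : MCl (M + 1)} {v g r e0 : ℕ} {b0 : ℝ} {s : MSys S (M + 1) (lin g) (Fin r)} {R : Rsl S}
    (h : BK C v g r e0 b0 S s R) (q : Pj T S) (B : ∀ k, (T.F k).Ω → Prop) (hB : 0 < ul (T.pr B)) {c : ℝ} (h0 : 0 ≤ c)
    (hc : c < b0) : volKO (s.im q B hB) R c = volKO s R c := by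
  have h1 := bk_tot h q B hB h0 hc
  unfold tot at h1
  linarith

/-- FA ON EVENTS OF EXTENSIONS -/
theorem fa_im (hLIT : LIT M) {A : MCl (M + 1)} {C : ℕ → MCl (M + 1)} (hok : Okc (M + 1) A C) {m v g r e0 D0 : ℕ}
    {q w0 : ℝ} (hD : 1 ≤ D0) (hw : 1 ≤ w0) {s : MSys S (M + 1) (lin g) (Fin r)} (h : FA (C m) v g r e0 D0 q w0 0 S s)
    (p : Pj T S) (B : ∀ k, (T.F k).Ω → Prop) (hB : 0 < ul (T.pr B)) :
    FA (C m) v g r e0 D0 q w0 0 (Sp.im p B) (s.im p B hB) := by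
  have hw0 : 0 < w0 := by linarith
  have hlt : ∀ c : ℝ, w0 * c < 1 - 0 → c < (1 - 0) / w0 := by
    intro c hc
    rw [lt_div_iff₀ hw0]
    linarith
  refine ⟨Pool.Agent.Helper71.VIS.bk_im hok h.bk p B hB, ?_, ?_, ?_⟩
  · intro c h0 hc
    have e : tot (s.im p B hB) (rbot (Sp.im p B)) c = tot s (rbot S) c := bk_tot h.bk p B hB h0 (hlt c hc)
    rw [e]
    exact h.tot c h0 hc
  · exact AllE_im (P := fun _ (t : MSys _ (M + 1) (lin g) (Fin r)) _ => ∀ b : ℝ, 0 ≤ b → b ≤ 1 →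
      H (t.Q.dg b) ≤ (M + q) * b + 0) (R := rbot S) h.dfc p B hB
  · obtain ⟨W, x, hx, h1⟩ := h.inf
    have key : ∀ b : ℚ, (0 : ℝ) ≤ b → w0 * b < 1 - 0 → ∃ x' : ∀ k, FD ((Sp.im p B).F k) (Mon (M + 1) D0),
        (∀ k, (x' k).l = Lab.ofZ (S := Sp.im p B) (W b) k) ∧ KAd (s.im p B hB) (rbot _) D0 b x' ∧
          vol (s.im p B hB).Q D0 x' ≤ volKO s (rbot S) b := by
      intro b h0 hb
      obtain ⟨k1, k2, -⟩ := h1 b h0 hb
      exact hLIT A C hok m v g r e0 D0 _ S s hD h.bk b h0 (hlt b hb) (W b) (x b) (hx b) k1 k2 T p B hB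
    choose y hy using key
    classical
    refine ⟨W, fun b => if hb : (0 : ℝ) ≤ b ∧ w0 * b < 1 - 0 then y b hb.1 hb.2 else fun k =>
      zFD (F := (Sp.im p B).F k) (W b k) (fun _ => 1), ?_, ?_⟩
    · intro b k
      by_cases hb : (0 : ℝ) ≤ b ∧ w0 * b < 1 - 0
      · simp only [hb, and_self, dite_true]
        exact (hy b hb.1 hb.2).1 k
      · simp only [dif_neg hb]
        rfl
    · intro b h0 hb
      have hb' : (0 : ℝ) ≤ b ∧ w0 * b < 1 - 0 := ⟨h0, hb⟩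
      simp only [dif_pos hb']
      refine ⟨(hy b h0 hb).2.1, ?_, ?_⟩
      · have h3 := bk_volKO h.bk p B hB h0 (hlt b hb)
        refine (hy b h0 hb).2.2.trans (le_of_eq ?_)
        exact h3.symm
      · intro b' hbb hb2 T' p' A' hA'
        obtain ⟨W', q', B', hB', h4⟩ := im_imR (M := M + 1) (E := lin g) (ι := Fin r) p B hB p' A' hA'
        have h5 := (h1 b h0 hb).2.2 b' hbb hb2 W' q' B' hB'
        have e1 := sig_fun (fun S (t : MSys S (M + 1) (lin g) (Fin r)) (R : Rsl S) => H (up1 (Lab.ofZ R) (t.Q.dg 1)))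
          (h4 s (W b))
        have e2 := sig_fun (fun S (t : MSys S (M + 1) (lin g) (Fin r)) (R : Rsl S) => H (up1 (Lab.ofZ R) (t.Q.dg 1)))
          (h4 s (fun k => W b k ⊓ W b' k))
        have goal : H (up1 (Lab.ofZ (S := Sp.im p' A') (W b)) (((s.im p B hB).im p' A' hA').Q.dg 1)) -
          H (up1 (Lab.ofZ (S := Sp.im p' A') fun k => W b k ⊓ W b' k) (((s.im p B hB).im p' A' hA').Q.dg 1)) ≤
            q * w0 * (b' - b) + 0 := by
          refine le_trans (le_of_eq ?_) h5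
          exact congrArg₂ (fun a b : ℝ => a - b) e1 e2
        exact goal

/-- FA UNDER SLOW DIAGONALS -/
theorem fa_dg (h1 : 1 ≤ M) {A : MCl (M + 1)} {C : ℕ → MCl (M + 1)} (hok : Okc (M + 1) A C)
    (hst : ∀ m, m < M + 1 → STu m) {v : ℕ} (hsto : STO (M + 1) (Cv A (v + 1))) (hL : ROW_LIMF M) {m g r e0 D0 : ℕ}
    {q w0 : ℝ} (hg : 1 ≤ g) (hr : 0 < r) (hD : 1 ≤ D0) (hq : 0 ≤ q) (hq1 : q < 1) (hw : 1 ≤ w0) :
    DiagCl (lftR fun S (s : MSys S (M + 1) (lin g) (Fin r)) R => R = rbot S ∧ FA (C m) v g r e0 D0 q w0 0 S s) := by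
  intro S x hx
  have h2 := hL A C h1 hok hst v hsto m g r e0 D0 q w0 (fun _ => 0) hg hr hD hq hq1 hw (fun _ => le_rfl)
    tendsto_const_nhds S (fun j k => ((x j k : FMs ((S j).F k).Ω (M + 1) (Fin r) × Setoid ((S j).F k).Ω).1)) (by
      intro j
      obtain ⟨s, R, hG, hR, -, hF⟩ := hx j
      refine ⟨s, ?_, hF⟩
      filter_upwards [hG.1, (Filter.eventually_all (l := (UF : Filter ℕ))).mpr hG.2] with k a b
      have e1 : ob s k = (⟨s.Q.v k, fun i => lob (s.lf i) k⟩ : FMs ((S j).F k).Ω (M + 1) (Fin r)) := rfl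
      rw [e1, a]
      have e2 : (fun i => lob (s.lf i) k) = (x j k : FMs ((S j).F k).Ω (M + 1) (Fin r) × Setoid ((S j).F k).Ω).1.lf :=
        funext b
      rw [e2])
  obtain ⟨E, hE, h3⟩ := h2
  refine ⟨fun i j k => E i j k ∧ (x j k : FMs ((S j).F k).Ω (M + 1) (Fin r) × Setoid ((S j).F k).Ω).2 = ⊥, ?_, ?_⟩
  · intro i j
    refine (hE i j).and ?_
    obtain ⟨s, R, hG, hR, hb, hF⟩ := hx j
    filter_upwards [hR] with k a
    rw [← a, hb]
    rfl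
  · intro J h
    obtain ⟨s, hs, hF⟩ := h3 J h.left
    refine ⟨s, rbot _, ⟨?_, ?_⟩, ?_, rfl, hF⟩
    · filter_upwards [hs] with k a
      exact congrArg FMs.Q a
    · intro i
      filter_upwards [hs] with k a
      exact congrArg (fun y : FMs _ (M + 1) (Fin r) => y.lf i) a
    · filter_upwards [h.right.slow 0] with k a
      exact a.symm

/-- **[FACL]** -/
theorem fa_cl2_of (hLIT : LIT M) (h1 : 1 ≤ M) {A : MCl (M + 1)} {C : ℕ → MCl (M + 1)} (hok : Okc (M + 1) A C)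
    (hst : ∀ m, m < M + 1 → STu m) {v : ℕ} (hsto : STO (M + 1) (Cv A (v + 1))) (hL : ROW_LIMF M) {m g r e0 D0 : ℕ}
    {q w0 : ℝ} (hg : 1 ≤ g) (hr : 0 < r) (hD : 1 ≤ D0) (hq : 0 ≤ q) (hq1 : q < 1) (hw : 1 ≤ w0) :
    Cl2 (fun S (s : MSys S (M + 1) (lin g) (Fin r)) R => R = rbot S ∧ FA (C m) v g r e0 D0 q w0 0 S s) := by
  refine ⟨?_, fa_dg h1 hok hst hsto hL hg hr hD hq hq1 hw⟩
  rintro S s R ⟨rfl, hF⟩ T p B hB
  exact ⟨rfl, fa_im hLIT hok hD hw hF p B hB⟩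

end

end Pool.Agent.Helper89.NUM
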