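import Pool.Agent.Helper89.NUM.Cl
import Pool.Agent.Helper77.FCL.Row
import Pool.Agent.Helper94.FSA.First

/-! [FACL] of helper94's assembly, from [LIMF]. -/

set_option autoImplicit false

namespace Pool.Agent.Helper89.NUM

open Pool.Agent.Helper15.FST Pool.Agent.Helper94.FSA

/-- **[FACL]** -/
theorem facl {M : ℕ} (hL : ROW_LIMF M) : FACL M := fun _ _ h1 hC hst _ hsto _ _ _ _ _ _ _ hg hr hD hq hq1 hw =>
  fa_cl2_of (Pool.Agent.Helper77.FCL.lit M) h1 hC hst hsto hL hg hr hD hq hq1 hw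

end Pool.Agent.Helper89.NUM
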