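import Pool.Agent.Helper89.NUM.Rea

/-! THE INTERVAL OF FIRST: real analysis. `u` total exponent, `J` information of the labels about the point, `h` entropy of
the point, `N - u c - (h - J c)` the deficit of the window `c`. -/

set_option autoImplicit false

namespace Pool.Agent.Helper89.NUM

open Filter Topology Set

/-- the deficit -/
def dfc (N h : ℝ) (u J : ℝ → ℝ) (c : ℝ) : ℝ := N - u c - (h - J c)

/-- THE NUMBERS of a robust class -/
structure RN (N h : ℝ) (u J : ℝ → ℝ) : Prop where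
  mono : ∀ c c' : ℝ, 0 ≤ c → c ≤ c' → c' ≤ 1 → u c ≤ u c'
  monoJ : ∀ c c' : ℝ, 0 ≤ c → c ≤ c' → c' ≤ 1 → J c ≤ J c'
  rc : ∀ c : ℝ, 0 ≤ c → c < 1 → ContinuousWithinAt u (Ioi c) c
  ge : ∀ c : ℝ, 0 ≤ c → c ≤ 1 → N * c ≤ u c
  leJ : ∀ c : ℝ, 0 ≤ c → c ≤ 1 → J c ≤ h
  dnn : ∀ c : ℝ, 0 ≤ c → c ≤ 1 → 0 ≤ dfc N h u J c
  spd : ∀ c c' : ℝ, 0 ≤ c → c < 1 → c ≤ c' → c' ≤ 1 → N * min (c' - c) (dfc N h u J c) ≤ u c' - u c

namespace RN

variable {N h : ℝ} {u J : ℝ → ℝ} (H : RN N h u J)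

include H

/-- speed `N` where the deficit is positive -/
theorem speed (hN : 0 ≤ N) {a b : ℝ} (h0 : 0 ≤ a) (hb : b ≤ 1) (hd : ∀ c, a ≤ c → c < b → 0 < dfc N h u J c) :
    ∀ x y, a ≤ x → x ≤ y → y ≤ b → N * (y - x) ≤ u y - u x := by
  refine speed_glob hN (fun x hx y hy hxy => H.mono x y (h0.trans hx.1) hxy (hy.2.trans hb)) fun c hc => ?_
  refine ⟨dfc N h u J c, hd c hc.1 hc.2, fun c' h1 h2 h3 => ?_⟩
  have h4 := H.spd c c' (h0.trans hc.1) (hc.2.trans_le hb) h1 (h3.trans hb)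
  rwa [min_eq_left (by linarith)] at h4

/-- the first window without deficit -/
theorem exists_b (h0 : 0 < dfc N h u J 0) : ∃ b : ℝ, 0 < b ∧ b < 1 ∧ (∀ c, 0 ≤ c → c < b → 0 < dfc N h u J c) ∧
    dfc N h u J b < dfc N h u J 0 := by
  set Z : Set ℝ := {c | 0 ≤ c ∧ c < 1 ∧ dfc N h u J c ≤ 0} with hZ
  by_cases hne : Z.Nonempty
  · have hbd : BddBelow Z := ⟨0, fun c hc => hc.1⟩
    set b := sInf Z with hb
    obtain ⟨w, hw⟩ := hne
    have hb0 : 0 ≤ b := le_csInf ⟨w, hw⟩ fun c hc => hc.1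
    have hb1 : b < 1 := (csInf_le hbd hw).trans_lt hw.2.1
    have hdb : dfc N h u J b ≤ 0 := by
      by_contra hcon
      rw [not_le] at hcon
      have h1 := H.rc b hb0 hb1
      rw [Metric.continuousWithinAt_iff] at h1
      obtain ⟨δ, hδ, h2⟩ := h1 (dfc N h u J b) hcon
      have h3 : ∃ c ∈ Z, c < b + δ := exists_lt_of_csInf_lt ⟨w, hw⟩ (by rw [← hb]; linarith)
      obtain ⟨c, hc, hc2⟩ := h3
      have h4 : b ≤ c := csInf_le hbd hc
      rcases h4.eq_or_lt with h5 | h5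
      · rw [← h5] at hc
        linarith [hc.2.2]
      · have h6 := h2 (show c ∈ Ioi b from h5) (by rw [Real.dist_eq, abs_of_pos (by linarith)]; linarith)
        rw [Real.dist_eq] at h6
        have h7 := (abs_lt.1 h6).2
        have h8 := H.monoJ b c hb0 h4 hc.2.1.le
        have h9 := hc.2.2
        unfold dfc at *
        linarith
    have hbp : 0 < b := by
      rcases hb0.eq_or_lt with h1 | h1
      · rw [← h1] at hdb
        linarith
      · exact h1
    refine ⟨b, hbp, hb1, fun c h1 h2 => ?_, by linarith⟩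
    by_contra hcon
    rw [not_lt] at hcon
    have := csInf_le hbd (show c ∈ Z from ⟨h1, h2.trans hb1, hcon⟩)
    linarith
  · have h1 : ∀ c, 0 ≤ c → c < 1 → 0 < dfc N h u J c := by
      intro c a b
      by_contra hcon
      exact hne ⟨c, a, b, not_lt.1 hcon⟩
    have hN : 0 ≤ N := by
      have h2 := H.dnn 0 le_rfl zero_le_one
      have h3 := H.ge 1 zero_le_one le_rfl
      have h4 := H.mono 0 1 le_rfl zero_le_one le_rfl
      have h5 := H.leJ 0 le_rfl zero_le_one
      have h6 := H.ge 0 le_rfl zero_le_one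
      unfold dfc at h2
      linarith
    refine ⟨max (1 / 2) (1 - dfc N h u J 0 / (2 * (N + 1))), ?_, ?_, fun c a b => h1 c a ?_, ?_⟩
    · exact lt_max_of_lt_left (by norm_num)
    · refine max_lt (by norm_num) ?_
      have : 0 < dfc N h u J 0 / (2 * (N + 1)) := by positivity
      linarith
    · refine b.trans (max_lt (by norm_num) ?_)
      have : 0 < dfc N h u J 0 / (2 * (N + 1)) := by positivity
      linarith
    · set b := max (1 / 2) (1 - dfc N h u J 0 / (2 * (N + 1))) with hb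
      have hb0 : 0 ≤ b := le_trans (by norm_num) (le_max_left _ _)
      have hb1 : b ≤ 1 := by
        refine max_le (by norm_num) ?_
        have : 0 < dfc N h u J 0 / (2 * (N + 1)) := by positivity
        linarith
      have h2 := H.ge b hb0 hb1
      have h3 := H.leJ b hb0 hb1
      have h4 : 1 - b ≤ dfc N h u J 0 / (2 * (N + 1)) := by
        have := le_max_right (1 / 2) (1 - dfc N h u J 0 / (2 * (N + 1)))
        linarith
      have h5 : N * (1 - b) ≤ N * (dfc N h u J 0 / (2 * (N + 1))) := mul_le_mul_of_nonneg_left h4 hN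
      have h6 : N * (dfc N h u J 0 / (2 * (N + 1))) ≤ dfc N h u J 0 / 2 := by
        rw [← mul_div_assoc, div_le_div_iff₀ (by positivity) two_pos]
        nlinarith
      have h7 : dfc N h u J b ≤ N * (1 - b) := by
        unfold dfc
        linarith
      linarith

/-- THE INTERVAL -/
theorem exists_ab (h0 : 0 < dfc N h u J 0) : ∃ a b : ℝ, 0 < a ∧ a < b ∧ b < 1 ∧
    (∀ c, 0 ≤ c → c < b → 0 < dfc N h u J c) ∧ (∀ x y, 0 ≤ x → x ≤ y → y ≤ b → N * (y - x) ≤ u y - u x) ∧
    MonotoneOn J (Icc a b) ∧ (∀ x ∈ Ico a b, ContinuousWithinAt u (Ioi x) x) ∧ J b - J a < u b - u a := by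
  obtain ⟨b, hb, hb1, hd, hlt⟩ := H.exists_b h0
  have hN : 0 ≤ N := by
    have h2 := H.dnn 0 le_rfl zero_le_one
    have h5 := H.leJ 0 le_rfl zero_le_one
    have h6 := H.ge 0 le_rfl zero_le_one
    unfold dfc at h2
    linarith
  have h1 := H.rc 0 le_rfl one_pos
  rw [Metric.continuousWithinAt_iff] at h1
  obtain ⟨δ, hδ, h2⟩ := h1 (dfc N h u J 0 - dfc N h u J b) (by linarith)
  set a := min (δ / 2) (b / 2) with ha
  have ha0 : 0 < a := lt_min (by linarith) (by linarith)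
  have hab : a < b := (min_le_right _ _).trans_lt (by linarith)
  have h3 := h2 (show a ∈ Ioi (0 : ℝ) from ha0) (by
    rw [Real.dist_eq, sub_zero, abs_of_pos ha0]
    exact (min_le_left _ _).trans_lt (by linarith))
  rw [Real.dist_eq] at h3
  have h4 := (abs_lt.1 h3).2
  have h5 := H.monoJ 0 a le_rfl ha0.le (by linarith)
  refine ⟨a, b, ha0, hab, hb1, hd, H.speed hN le_rfl hb1.le hd, fun x hx y hy hxy => ?_, fun x hx => ?_, ?_⟩
  · exact H.monoJ x y (ha0.le.trans hx.1) hxy (hy.2.trans hb1.le)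
  · exact H.rc x (ha0.le.trans hx.1) (hx.2.trans hb1)
  · unfold dfc at h4
    linarith

end RN

end Pool.Agent.Helper89.NUM
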