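import Pool.Agent.Helper89.NUM.Spdf
import Pool.Agent.Helper89.NUM.Int
import Pool.Agent.Helper14.MC.Cnt

/-! [NUM] THE NUMBERS OF FIRST: for a pair `(s, R)` the volumes and least entropies of which are the same on all events,
`u = tot s R`, `J = H (Q_1) - HK s R` satisfy `RN`. -/

set_option autoImplicit false

namespace Pool.Agent.Helper89.NUM

open Finset Filter Topology Matrix Pool.Agent.Helper69.RK Pool.Agent.Helper31.EC Pool.Agent.Helper31.EC.Sp
open Pool.Agent.Helper40.EL Pool.Agent.Helper89.LX Pool.Agent.Helper84.MT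
open Pool.Agent.Helper3.LF (Mon gam lb)
open Pool.Agent.Helper89.RAK (Lit KC)
open Pool.Agent.Helper29.MX
open Pool.Agent.Helper36.AM (STu)

noncomputable section

variable {S T : Sp} {M D d g : ℕ} {E : ℕ → ℕ} {ι κ : Type}

theorem KLb_mono {s : MSys S M E ι} {R : Rsl S} {c c' : ℝ} (h : c ≤ c') {l : Lab S} (hl : KLb s R c l) :
    KLb s R c' l := by
  refine ⟨hl.1.mono fun i => ⟨i, ?_⟩, hl.2⟩
  rcases i with _ | i
  · exact PLe.refl _
  · exact (s.lf i).win_mono h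

theorem KLb_tr (s : MSys S M E ι) (R : Rsl S) (c : ℝ) : KLb s R c (fun k => FLab.triv (S.F k)) :=
  ⟨Lab.DMf_triv _, (KZ R).ev_triv⟩

theorem HK_bdd (s : MSys S M E ι) (R : Rsl S) (c : ℝ) :
    BddBelow {v | ∃ l : Lab S, KLb s R c l ∧ v = H (up1 l (s.Q.dg 1))} := by
  refine ⟨0, ?_⟩
  rintro v ⟨l, -, rfl⟩
  exact H_nonneg _

theorem HK_le_of {s : MSys S M E ι} {R : Rsl S} {c : ℝ} {l : Lab S} (hl : KLb s R c l) :
    HK s R c ≤ H (up1 l (s.Q.dg 1)) := csInf_le (HK_bdd s R c) ⟨l, hl, rfl⟩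

theorem HK_nonneg (s : MSys S M E ι) (R : Rsl S) (c : ℝ) : 0 ≤ HK s R c := by
  refine le_csInf ⟨_, _, KLb_tr s R c, rfl⟩ ?_
  rintro v ⟨l, -, rfl⟩
  exact H_nonneg _

theorem HK_anti (s : MSys S M E ι) (R : Rsl S) {c c' : ℝ} (h : c ≤ c') : HK s R c' ≤ HK s R c := by
  refine le_csInf ⟨_, _, KLb_tr s R c, rfl⟩ ?_
  rintro v ⟨l, hl, rfl⟩
  exact HK_le_of (KLb_mono h hl)

/-- counting: the deficit is not negative -/
theorem HK_le_volKO [Finite ι] (s : MSys S M E ι) (R : Rsl S) (c : ℝ) : HK s R c ≤ volKO s R c := by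
  refine Pool.Agent.Helper61.SEL.le_volKO 1 fun D hD => ?_
  obtain ⟨x, hx⟩ := (gaq s.Q D).exists_optfK (KZ R) (Pool.Agent.Helper87.NSL.cndR s R c)
  have h1 : volK s R D c = vol s.Q D x := volK_of_opt hx
  rw [h1]
  have h2 : KLb s R c (lb x) := ⟨hx.1.1.dm, hx.1.2⟩
  exact (HK_le_of h2).trans (Pool.Agent.Helper14.MC.cnt_vol s.Q hD x hx.1.1)

/-- every coordinate loses at least the window -/
theorem tot_ge [Finite ι] {s : MSys S M E ι} {R : Rsl S} (hP : Pt s R) {c : ℝ} (h0 : 0 ≤ c) (h1 : c ≤ 1) :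
    M * c ≤ Pool.Agent.Helper94.SEL.tot s R c := by
  have e : Pool.Agent.Helper94.SEL.tot s R c = Pool.Agent.Helper84.KR.An s R M c := by
    rw [Pool.Agent.Helper84.KR.An_top]
    rfl
  rw [e]
  have h2 : ∀ j : ℕ, j ≤ M → (j : ℝ) * c ≤ Pool.Agent.Helper84.KR.An s R j c := by
    intro j
    induction j with
    | zero =>
      intro _
      rw [Nat.cast_zero, zero_mul, Pool.Agent.Helper84.KR.An_zero]
    | succ j ih =>
      intro hj
      have h3 := Pool.Agent.Helper84.KR.An_step hP hj h0 h1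
      have h4 := ih (Nat.le_of_succ_le hj)
      push_cast
      linarith
  exact h2 M le_rfl

/-- THE PAIR HAS THE SAME NUMBERS on all events of the same space -/
structure Rig (s : MSys S M E ι) (R : Rsl S) : Prop where
  v : ∀ (A : ∀ k, (S.F k).Ω → Prop) (hA : 0 < ul (S.pr A)) (c : ℝ), 0 ≤ c → c < 1 →
    volKO s R c ≤ volKO (s.im (Pj.id S) A hA) R c
  h : ∀ (A : ∀ k, (S.F k).Ω → Prop) (hA : 0 < ul (S.pr A)) (c : ℝ), 0 ≤ c → c < 1 →
    HK (s.im (Pj.id S) A hA) R c ≤ HK s R c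

/-- THE NUMBERS -/
theorem rn_of [Finite ι] [Encodable ι] (hST : STu d) {s : MSys S (d + 1) (lin g) ι} {R : Rsl S} (hlit : Lit R s.Q)
    (hP : Pt s R) (hr : Rig s R) (hdeg : ∀ c : ℝ, 0 ≤ c → c < 1 → ∃ b : ℝ, c < b ∧ ∃ D : ℕ, ∀ c', c ≤ c' → c' < b →
      volKO s R c' = volK s R D c') :
    RN ((d + 1 : ℕ) : ℝ) (HK s R 0) (fun c => Pool.Agent.Helper94.SEL.tot s R c) (fun c => HK s R 0 - HK s R c) where
  mono := fun c c' _ h _ => tot_mono s R h
  monoJ := fun c c' _ h _ => by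
    have := HK_anti s R h
    show HK s R 0 - HK s R c ≤ HK s R 0 - HK s R c'
    linarith
  rc := fun c h0 h1 => by
    obtain ⟨b, hb, hD⟩ := hdeg c h0 h1
    exact tot_rc s R hb hD
  ge := fun c h0 h1 => tot_ge hP h0 h1
  leJ := fun c h0 h1 => by
    have := HK_nonneg s R c
    show HK s R 0 - HK s R c ≤ HK s R 0
    linarith
  dnn := fun c h0 h1 => by
    have h2 := HK_le_volKO s R c
    show 0 ≤ ((d + 1 : ℕ) : ℝ) - ((d + 1 : ℕ) - volKO s R c) - (HK s R 0 - (HK s R 0 - HK s R c))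
    linarith
  spd := fun c c' h0 h1 h2 h3 => by
    have e : dfc ((d + 1 : ℕ) : ℝ) (HK s R 0) (fun c => Pool.Agent.Helper94.SEL.tot s R c)
        (fun c => HK s R 0 - HK s R c) c = volKO s R c - HK s R c := by
      show ((d + 1 : ℕ) : ℝ) - ((d + 1 : ℕ) - volKO s R c) - (HK s R 0 - (HK s R 0 - HK s R c)) = _
      ring
    rw [e]
    have h4 := volKO_speedH hST hlit hP h0 h1 h2 (δ := volKO s R c - HK s R c) fun A hA => by
      have h5 := hr.v A hA c h0 h1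
      have h6 := hr.h A hA c h0 h1
      linarith
    show _ ≤ ((d + 1 : ℕ) : ℝ) - volKO s R c' - ((d + 1 : ℕ) - volKO s R c)
    linarith

end

end Pool.Agent.Helper89.NUM
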