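import Pool.Agent.Helper89.NUM.Num
import Pool.Agent.Helper3.ENT.Ent
import Pool.Agent.Helper3.MX.Stkq
import Pool.Agent.Helper26.MT.Zw

/-! SYSTEMS WITH A TRANSVERSAL PAIR: the numbers of type-labels are the ordinary numbers; one degree is enough for all
windows; right continuity at all windows `c < 1`. -/

set_option autoImplicit false

namespace Pool.Agent.Helper89.NUM

open Finset Filter Topology Matrix Pool.Agent.Helper69.RK Pool.Agent.Helper31.EC Pool.Agent.Helper31.EC.Sp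
open Pool.Agent.Helper40.EL Pool.Agent.Helper89.LX Pool.Agent.Helper84.MT
open Pool.Agent.Helper3.LF (Mon gam lb)
open Pool.Agent.Helper3.ENT (Tri)
open Pool.Agent.Helper29.MX
open Pool.Agent.Helper36.AM (STu volO)

noncomputable section

variable {S T : Sp} {M D d g : ℕ} {E : ℕ → ℕ} {ι κ : Type} [Finite ι]

/-- forms over type-labels are ordinary forms -/
theorem kad_ord {s : MSys S M E ι} {i j : ι} (h : Tri i j s) {c : ℝ} (hc : c ≤ 1) {x : ∀ k, FD (S.F k) (Mon M D)} :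
    KAd s (rbot S) D c x ↔ (gaq s.Q D).Adf (s.cnd c) x := by
  rw [kad_bot]
  constructor
  · intro hx
    rw [Gau.Adf_iff] at hx ⊢
    exact ⟨h.dmc hc (fun a => hx.1 a), hx.2⟩
  · intro hx
    exact hx.mono_of fun i => ⟨some i, PLe.refl _⟩

theorem volK_ord {s : MSys S M E ι} {i j : ι} (h : Tri i j s) {c : ℝ} (hc : c ≤ 1) (D : ℕ) :
    volK s (rbot S) D c = s.vol D c := by
  apply le_antisymm
  · obtain ⟨y, hy⟩ := s.exists_can D c
    rw [← s.vol_eq hy.1]
    exact volK_le_of ((kad_ord h hc).mpr hy.1.1)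
  · obtain ⟨x, hx⟩ := (gaq s.Q D).exists_optfK (KZ (rbot S)) (Pool.Agent.Helper87.NSL.cndR s (rbot S) c)
    have h1 : volK s (rbot S) D c = vol s.Q D x := volK_of_opt hx
    rw [h1]
    exact s.vol_le_of ((kad_ord h hc).mp hx.1)

theorem volKO_ord {s : MSys S M E ι} {i j : ι} (h : Tri i j s) {c : ℝ} (hc : c ≤ 1) :
    volKO s (rbot S) c = volO s c := by
  unfold volKO
  exact iInf_congr fun D => volK_ord h hc D

/-- ONE DEGREE FOR ALL WINDOWS, ordinary labels -/
theorem vol_win (hst : ∀ m, m < M → STu m) (g : ℕ) : ∃ D₁ : ℕ, 1 ≤ D₁ ∧ ∀ D, D₁ ≤ D → ∀ (r : ℕ) (S : Sp)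
    (s : MSys S M (lin g) (Fin r)) (c : ℝ), 0 ≤ c → c < 1 → s.vol D c = volO s c := by
  obtain ⟨D₁, h1⟩ := Pool.Agent.Helper3.MX.dgru_all M hst g
  refine ⟨max D₁ 1, le_max_right _ _, fun D hD r S s c hc hc1 => ?_⟩
  have hl : s.DMc c (fun k => FLab.triv (S.F k)) := Lab.DMf_triv _
  have hD1 : 1 ≤ D := (le_max_right _ _).trans hD
  have h2 := (s.mkz hc hc1 hl).vol_sys hD1 (b := 0) le_rfl
  have e1 : (s.mkz hc hc1 hl).c + (s.mkz hc hc1 hl).e * 0 = c := by
    rw [mul_zero, add_zero]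
    rfl
  rw [e1] at h2
  have h3 := h1 D ((le_max_left _ _).trans hD) r _ (s.mkz hc hc1 hl).sys
  have h4 := Pool.Agent.Helper84.MT.volO_le (s.mkz hc hc1 hl).sys D 0
  have h5 := volO_mkz s hc hc1 hl
  rw [h2, h5, le_antisymm h3 h4]
  rfl

/-- RIGHT CONTINUITY of the total exponent at all windows `c < 1` -/
theorem tot_rcT (hst : ∀ m, m < M → STu m) {r : ℕ} {s : MSys S M (lin g) (Fin r)} {i j : Fin r} (h : Tri i j s)
    {c : ℝ} (h0 : 0 ≤ c) (h1 : c < 1) :
    ContinuousWithinAt (fun c => Pool.Agent.Helper94.SEL.tot s (rbot S) c) (Set.Ioi c) c := by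
  obtain ⟨D, -, hD⟩ := vol_win hst g
  refine tot_rc s (rbot S) h1 ⟨D, fun c' a b => ?_⟩
  rw [volKO_ord h b.le, volK_ord h b.le, hD D le_rfl r S s c' (h0.trans a) b]

omit [Finite ι] in
theorem pt_bot (s : MSys S M E ι) : Pt s (rbot S) := by
  refine Eventually.of_forall fun k ω ω' _ _ _ h => ?_
  have h1 : ω = ω' := h
  rw [h1]

omit [Finite ι] in
theorem lit_bot (s : MSys S M E ι) : Pool.Agent.Helper89.RAK.Lit (rbot S) s.Q := by
  intro k ω ω' h
  have h1 : ω = ω' := h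
  rw [h1]

end

end Pool.Agent.Helper89.NUM
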