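import Pool.Agent.Helper89.NUM.Int
import Pool.Agent.Helper15.FST.Abs

/-! THE DICHOTOMY OF FIRST: a jump of the total exponent which is larger than the jump of the information, or a point with
one sided rates `q < 1`, `p ≥ 0`. -/

set_option autoImplicit false

namespace Pool.Agent.Helper89.NUM

open Filter Topology Set
open Pool.Agent.Helper15.FST (NoJ exists_pt)

/-- THE DICHOTOMY -/
theorem RN.first {N h : ℝ} {u J : ℝ → ℝ} (H : RN N h u J) (hN : 0 < N) (h0 : 0 < dfc N h u J 0) :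
    (∃ c : ℝ, 0 < c ∧ c < 1 ∧ (∀ c', 0 ≤ c' → c' < c → 0 < dfc N h u J c') ∧
      ∃ ε : ℝ, 0 < ε ∧ ∀ᶠ y in 𝓝[<] c, u y - J y + ε < u c - J c) ∨
    ∃ c : ℝ, 0 < c ∧ c < 1 ∧ (∀ c', 0 ≤ c' → c' ≤ c → 0 < dfc N h u J c') ∧ ∃ p q : ℝ, 0 ≤ p ∧ 0 ≤ q ∧ q < 1 ∧
      Tendsto (fun h => h / (u (c + h) - u c)) (𝓝[>] 0) (𝓝 p) ∧
      Tendsto (fun h => (J (c + h) - J c) / (u (c + h) - u c)) (𝓝[>] 0) (𝓝 q) := by
  obtain ⟨a, b, ha, hab, hb, hd, hs, hJ, hr, hD⟩ := H.exists_ab h0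
  by_cases hno : ∀ c ∈ Ioc a b, NoJ u J c
  · right
    obtain ⟨c, hc, h1⟩ := exists_pt hab hN (fun x y hx hxy hy => hs x y (ha.le.trans hx) hxy hy) hJ hr hno hD
    exact ⟨c, ha.trans_le hc.1, hc.2.trans hb, fun c' h2 h3 => hd c' h2 (h3.trans_lt hc.2), h1⟩
  · left
    push Not at hno
    obtain ⟨c, hc, h1⟩ := hno
    unfold NoJ at h1
    push Not at h1
    obtain ⟨ε, hε, h2⟩ := h1
    exact ⟨c, ha.trans hc.1, hc.2.trans_lt hb, fun c' h3 h4 => hd c' h3 (h4.trans_le hc.2), ε, hε, h2⟩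

end Pool.Agent.Helper89.NUM
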