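import Mathlib

/-! Real analysis for the numbers of FIRST: a local lower bound of the increments to the right is a global one; infima of
functions which are attained by one right continuous function. -/

set_option autoImplicit false

namespace Pool.Agent.Helper89.NUM

open Filter Topology Set

/-- a nondecreasing function with local speed `κ` to the right has speed `κ` -/
theorem speed_glob {u : ℝ → ℝ} {a b κ : ℝ} (hκ : 0 ≤ κ) (hm : MonotoneOn u (Icc a b))
    (hloc : ∀ c ∈ Ico a b, ∃ h : ℝ, 0 < h ∧ ∀ c', c ≤ c' → c' ≤ c + h → c' ≤ b → κ * (c' - c) ≤ u c' - u c) :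
    ∀ x y, a ≤ x → x ≤ y → y ≤ b → κ * (y - x) ≤ u y - u x := by
  intro x y hax hxy hyb
  set A : Set ℝ := {z | z ∈ Icc x y ∧ κ * (z - x) ≤ u z - u x} with hA
  have hx : x ∈ A := ⟨⟨le_rfl, hxy⟩, by rw [sub_self, mul_zero, sub_self]⟩
  have hbd : BddAbove A := ⟨y, fun z hz => hz.1.2⟩
  set z := sSup A with hz
  have hxz : x ≤ z := le_csSup hbd hx
  have hzy : z ≤ y := csSup_le ⟨x, hx⟩ fun w hw => hw.1.2
  have hzI : z ∈ Icc a b := ⟨hax.trans hxz, hzy.trans hyb⟩
  have hzA : z ∈ A := by
    refine ⟨⟨hxz, hzy⟩, ?_⟩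
    have h1 : κ * (z - x) - (u z - u x) ≤ 0 := by
      by_contra hcon
      rw [not_le] at hcon
      set ε := κ * (z - x) - (u z - u x) with hε
      obtain ⟨w, hw, hw2⟩ := exists_lt_of_lt_csSup ⟨x, hx⟩ (show z - ε / (2 * (κ + 1)) < sSup A by
        rw [← hz]
        have : 0 < ε / (2 * (κ + 1)) := by positivity
        linarith)
      have h3 : w ≤ z := le_csSup hbd hw
      have h4 : u w ≤ u z := hm ⟨hax.trans hw.1.1, h3.trans hzI.2⟩ hzI h3
      have h5 := hw.2
      have h6 : κ * (z - w) ≤ κ * (ε / (2 * (κ + 1))) := mul_le_mul_of_nonneg_left (by linarith) hκ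
      have h7 : κ * (ε / (2 * (κ + 1))) ≤ ε / 2 := by
        rw [← mul_div_assoc, div_le_div_iff₀ (by positivity) two_pos]
        nlinarith
      have h8 : κ * (z - x) = κ * (z - w) + κ * (w - x) := by ring
      linarith
    linarith
  rcases eq_or_lt_of_le hzy with h1 | h1
  · rw [h1] at hzA
    exact hzA.2
  · exfalso
    obtain ⟨h, hh, h2⟩ := hloc z ⟨hax.trans hxz, h1.trans_le hyb⟩
    set w := min (z + h) y with hw
    have h3 : z < w := lt_min (by linarith) h1
    have h4 := h2 w h3.le (min_le_left _ _) ((min_le_right _ _).trans hyb)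
    have h5 : w ∈ A := ⟨⟨hxz.trans h3.le, min_le_right _ _⟩, by
      have := hzA.2
      have e : κ * (w - x) = κ * (w - z) + κ * (z - x) := by ring
      linarith⟩
    have := le_csSup hbd h5
    linarith

/-- right continuity from one sided bounds, nondecreasing functions -/
theorem cwa_of_rc {f : ℝ → ℝ} {c b : ℝ} (hcb : c < b) (hm : ∀ c', c ≤ c' → c' < b → f c ≤ f c')
    (h : ∀ ε : ℝ, 0 < ε → ∃ δ : ℝ, 0 < δ ∧ ∀ c', c ≤ c' → c' < c + δ → c' < b → f c' ≤ f c + ε) :
    ContinuousWithinAt f (Ioi c) c := by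
  rw [Metric.continuousWithinAt_iff]
  intro ε hε
  obtain ⟨δ, hδ, h1⟩ := h (ε / 2) (by linarith)
  refine ⟨min δ (b - c), lt_min hδ (by linarith), fun {y} hy hyd => ?_⟩
  have hy' : c < y := hy
  rw [Real.dist_eq, abs_of_pos (by linarith)] at hyd
  have h2 := lt_of_lt_of_le hyd (min_le_left _ _)
  have h3 := lt_of_lt_of_le hyd (min_le_right _ _)
  have h4 := h1 y hy'.le (by linarith) (by linarith)
  have h5 := hm y hy'.le (by linarith)
  rw [Real.dist_eq, abs_of_nonneg (by linarith)]
  linarith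

end Pool.Agent.Helper89.NUM
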