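import Pool.Agent.Helper89.NUM.Spg
import Pool.Agent.Helper89.NUM.Rea
import Pool.Agent.Helper52.GF.Mxb

/-! RIGHT CONTINUITY in the window of the volumes of the K-labels of a pair, and of the least entropies over K-labels. -/

set_option autoImplicit false

namespace Pool.Agent.Helper89.NUM

open Finset Filter Topology Matrix Pool.Agent.Helper69.RK Pool.Agent.Helper31.EC Pool.Agent.Helper31.EC.Sp
open Pool.Agent.Helper40.EL Pool.Agent.Helper89.LX Pool.Agent.Helper84.MT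
open Pool.Agent.Helper47.FN (KR lftR obR)
open Pool.Agent.Helper52.GF (prR puR giv_obR mx_volK_kvm kvm_rc isK puR_obR kvm)
open Pool.Agent.Helper29.MX

noncomputable section

variable {S T : Sp} {M D : ℕ} {E : ℕ → ℕ} {ι κ : Type}

theorem isK_obR [Encodable ι] (s : MSys S M E ι) (R : Rsl S) : isK E (prR M ι) S (obR s R) := ⟨s, giv_obR s R⟩

theorem puR_ev (s : MSys S M E ι) (R : Rsl S) : ∀ᶠ k in UF, (puR M ι).pt (obR s R) k = fc (R k) :=
  Eventually.of_forall fun k => congrFun (puR_obR s R) k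

theorem volK_kvm [Finite ι] [Encodable ι] (s : MSys S M E ι) (R : Rsl S) (D : ℕ) (c : ℝ) :
    volK s R D c = kvm E (prR M ι) D (puR M ι) (puR M ι) c (obR s R) :=
  mx_volK_kvm (giv_obR s R) (puR_ev s R) (puR_ev s R) D c

/-- RIGHT CONTINUITY OF VOLUMES, one degree -/
theorem volK_rc [Finite ι] [Encodable ι] (s : MSys S M E ι) (R : Rsl S) (D : ℕ) (c : ℝ) {ε : ℝ} (hε : 0 < ε) :
    ∃ δ : ℝ, 0 < δ ∧ ∀ c', c ≤ c' → c' < c + δ → volK s R D c - ε ≤ volK s R D c' := by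
  obtain ⟨δ, h1, h2⟩ := kvm_rc (prR M ι) (isK_obR s R) (V := puR M ι) (W := puR M ι) c hε D
  refine ⟨δ, h1, fun c' a b => ?_⟩
  rw [volK_kvm, volK_kvm]
  exact h2 c' a b

theorem tot_mono [Finite ι] (s : MSys S M E ι) (R : Rsl S) {c c' : ℝ} (h : c ≤ c') :
    Pool.Agent.Helper94.SEL.tot s R c ≤ Pool.Agent.Helper94.SEL.tot s R c' := by
  have e : ∀ c : ℝ, Pool.Agent.Helper94.SEL.tot s R c = Pool.Agent.Helper84.KR.An s R M c := fun c => by
    rw [Pool.Agent.Helper84.KR.An_top]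
    rfl
  rw [e, e]
  exact Pool.Agent.Helper84.KR.An_mono s R M h

/-- RIGHT CONTINUITY OF VOLUMES, all degrees, if one degree is enough near `c` -/
theorem volKO_rc [Finite ι] [Encodable ι] (s : MSys S M E ι) (R : Rsl S) {c b : ℝ}
    (hD : ∃ D : ℕ, ∀ c', c ≤ c' → c' < b → volKO s R c' = volK s R D c') {ε : ℝ} (hε : 0 < ε) :
    ∃ δ : ℝ, 0 < δ ∧ ∀ c', c ≤ c' → c' < c + δ → c' < b → volKO s R c - ε ≤ volKO s R c' := by
  obtain ⟨D, hD⟩ := hD
  obtain ⟨δ, h1, h2⟩ := volK_rc s R D c hε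
  refine ⟨δ, h1, fun c' a a' a'' => ?_⟩
  rw [hD c' a a'', hD c le_rfl (a.trans_lt a'')]
  exact h2 c' a a'

/-- the exponent is right continuous -/
theorem tot_rc [Finite ι] [Encodable ι] (s : MSys S M E ι) (R : Rsl S) {c b : ℝ} (hcb : c < b)
    (hD : ∃ D : ℕ, ∀ c', c ≤ c' → c' < b → volKO s R c' = volK s R D c') :
    ContinuousWithinAt (fun c => Pool.Agent.Helper94.SEL.tot s R c) (Set.Ioi c) c := by
  refine cwa_of_rc hcb (fun c' h1 _ => ?_) fun ε hε => ?_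
  · exact tot_mono s R h1
  · obtain ⟨δ, h1, h2⟩ := volKO_rc s R hD hε
    refine ⟨δ, h1, fun c' a a' a'' => ?_⟩
    show (M : ℝ) - volKO s R c' ≤ M - volKO s R c + ε
    have := h2 c' a a' a''
    linarith

end

end Pool.Agent.Helper89.NUM
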