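import Pool.Agent.Helper89.NUM.Rcv
import Pool.Agent.Helper61.SEL.Exo

/-! SPEED FROM THE DEFICIT: if the deficit `volKO - HK` of the window `c` is at least `δ` on all events, the volumes
decrease from the window `c` at least by `N min (c' - c) δ`. -/

set_option autoImplicit false

namespace Pool.Agent.Helper89.NUM

open Finset Filter Topology Matrix Pool.Agent.Helper69.RK Pool.Agent.Helper31.EC Pool.Agent.Helper31.EC.Sp
open Pool.Agent.Helper40.EL Pool.Agent.Helper89.LX Pool.Agent.Helper84.MT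
open Pool.Agent.Helper3.LF (Mon gam lb)
open Pool.Agent.Helper89.RAT (Jz)
open Pool.Agent.Helper89.RAK (Lit KC)
open Pool.Agent.Helper89.RAD (cnA dp vol_speedD)
open Pool.Agent.Helper89.SPX
open Pool.Agent.Helper48.ROK (nrm nrm_lit nrm_fc volC_res)
open Pool.Agent.Helper7.RD (volC volCO volC_eq volC_le_of volCO_le)
open Pool.Agent.Helper29.MX
open Pool.Agent.Helper61.SEL (GrLe typ_all exists_LF exhK_typ volK_deg le_volKO)
open Pool.Agent.Helper36.AM (STu)
open Pool.Agent.Helper49.KL (LF)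

noncomputable section

variable {S T : Sp} {M D d g : ℕ} {E : ℕ → ℕ} {ι κ : Type}

/-- bounded gradients in the form of `Spd` -/
theorem gam_of_GrLe {Q : S.VV M} {x : ∀ k, FD (S.F k) (Mon M D)} {t : ℝ} (h : GrLe Q x t) (e : ℝ) (he : 0 < e) :
    Tendsto (fun k => (x k).l.T.pb (fun ω => ¬ gam (S.dl 1 k) ((x k).g ω) (Q.v k ((x k).l.p.π ω)) ≤
      2 ^ (2 * (t + e) * (S.F k).n))) UF (𝓝 0) := by
  have h0 : Typ (S := (lb x).sp) (fun k (ω : (x k).l.T.Ω) => ∀ z : Fin M,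
      Jz Q z k ((x k).l.p.π ω) ((x k).g ω) ≤ 2 ^ (2 * (t + e / 2) * (S.F k).n)) :=
    typ_all (S := (lb x).sp) _ fun z => h z (e / 2) (by linarith)
  have hT' : Tendsto (fun k => (x k).l.T.pb (fun ω => ¬ ∀ z : Fin M,
      Jz Q z k ((x k).l.p.π ω) ((x k).g ω) ≤ 2 ^ (2 * (t + e / 2) * (S.F k).n))) UF (𝓝 0) := h0
  refine squeeze_zero' (Eventually.of_forall fun k => (x k).l.T.pb_nonneg _) ?_ hT'
  filter_upwards [(S.Sub_const (by positivity : (0 : ℝ) ≤ M)).eventually_le he] with k hk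
  refine FSp.pb_mono (x k).l.T ?_
  intro ω _ h3 h4
  apply h3
  have h2 : gam (S.dl 1 k) ((x k).g ω) (Q.v k ((x k).l.p.π ω)) =
      ∑ i, Jq (S.dl 1 k) ((x k).g ω) (Q.v k ((x k).l.p.π ω)) i i := by
    unfold gam
    exact Finset.sum_congr rfl fun i _ => (Jq_apply _ _ _ i i).symm
  rw [h2]
  have h5 : ∀ i : Fin M, Jq (S.dl 1 k) ((x k).g ω) (Q.v k ((x k).l.p.π ω)) i i ≤
      2 ^ (2 * (t + e / 2) * (S.F k).n) := by
    intro i
    have h6 := h4 i
    unfold Jz at h6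
    linarith
  refine (Finset.sum_le_card_nsmul _ _ _ fun i _ => h5 i).trans ?_
  rw [nsmul_eq_mul, Finset.card_univ, Fintype.card_fin]
  have e2 : (2 : ℝ) ^ (2 * (t + e) * (S.F k).n) = 2 ^ (e * (S.F k).n) * 2 ^ (2 * (t + e / 2) * (S.F k).n) := by
    rw [← Real.rpow_add (by norm_num)]
    congr 1
    ring
  rw [e2]
  exact mul_le_mul_of_nonneg_right (by linarith) (by positivity)

/-- SPEED OF THE VOLUME, one degree, from an admissible form with bounded gradients -/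
theorem volK_speedL [Finite ι] (s : MSys S M E ι) {R : Rsl S} (hP : Pt s R) (hD : 1 ≤ D) {c c' t : ℝ}
    (h0 : 0 ≤ c) (hc1 : c < 1) (hcc : c ≤ c') {x : ∀ k, FD (S.F k) (Mon M D)} (hx : KAd s R D c x)
    (hu : GrLe s.Q x t) : volK s R D c' + M * min (c' - c) (1 - t) ≤ vol s.Q D x := by
  set R' := nrm R s.Q with hR'
  have h := nrm_fc (R := R) (Q := s.Q) hP
  have e1 : ∀ c : ℝ, volK s R D c = volC (KC R') (cnA s (dp R') c) s.Q D := fun c => by
    rw [volC_res h, volK_eq, cndR_eq]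
  have hx' : (gaq s.Q D).AdfK (KC R') (cnA s (dp R') c) x := by
    refine (Pool.Agent.Helper48.ROK.adfK_res (s := s) h).mpr ?_
    have h2 := hx
    unfold KAd at h2
    rwa [cndR_eq] at h2
  rw [e1]
  obtain ⟨y, hy⟩ := (gaq s.Q D).exists_optfK (KC R') (cnA s (dp R') c')
  rw [volC_eq hy]
  exact vol_speedD s (nrm_lit R s.Q) (B0 := R') (fun k ω ω' r => ker_cell (nrm_lit R s.Q k r)) hD h0 hc1 hcc
    hx' hy (Γ := t) fun e he => gam_of_GrLe hu e he

/-- SPEED FROM THE DEFICIT -/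
theorem volKO_speedH [Finite ι] (hST : STu d) {s : MSys S (d + 1) (lin g) ι} {R : Rsl S} (hlit : Lit R s.Q)
    (hP : Pt s R) {c c' : ℝ} (h0 : 0 ≤ c) (h1 : c < 1) (hcc : c ≤ c') {δ : ℝ}
    (hδ : ∀ (A : ∀ k, (S.F k).Ω → Prop) (hA : 0 < ul (S.pr A)),
      δ ≤ volKO (s.im (Pj.id S) A hA) R c - HK (s.im (Pj.id S) A hA) R c) :
    volKO s R c' + (d + 1 : ℕ) * min (c' - c) δ ≤ volKO s R c := by
  obtain ⟨D₁, hD₁⟩ := hST g
  refine le_volKO (max D₁ 1) fun D hD => ?_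
  have hD1 : D₁ ≤ D := (le_max_left _ _).trans hD
  have hD0 : 1 ≤ D := (le_max_right _ _).trans hD
  obtain ⟨L, -, hL⟩ := exists_LF s R D c
  have hG : GrLe s.Q L.fd (1 - δ) := exhK_typ (hD₁ D hD1) hlit hD0 h0 h1 hL.1 fun A hA => by
    have h2 := hδ A hA
    have h3 := volKO_le_volK (s.im (Pj.id S) A hA) R D c
    linarith
  have h4 := volK_speedL s hP hD0 h0 h1 hcc hL.1 hG
  rw [sub_sub_cancel] at h4
  have h5 := volKO_le_volK s R D c'
  have h6 : volK s R D c = vol s.Q D L.fd := volK_of_opt hL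
  rw [h6]
  linarith

end

end Pool.Agent.Helper89.NUM
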