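import Pool.Agent.Helper89.SPX.Spd
import Pool.Agent.Helper84.MT.Row

/-! SPEED while the gradients of an optimal form are bounded: `GrB s.Q x u` (the top exponent is at most `1 - u`) gives the
speed `M min (c' - c) u` of the volume, all K-labels (literal point). -/

set_option autoImplicit false

namespace Pool.Agent.Helper89.NUM

open Finset Filter Topology Matrix Pool.Agent.Helper69.RK Pool.Agent.Helper31.EC Pool.Agent.Helper31.EC.Sp
open Pool.Agent.Helper40.EL Pool.Agent.Helper89.LX Pool.Agent.Helper84.MT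
open Pool.Agent.Helper3.LF (Mon gam)
open Pool.Agent.Helper89.RAK (Lit KC)
open Pool.Agent.Helper89.RAD (cnA dp vol_speedD)
open Pool.Agent.Helper89.SPX
open Pool.Agent.Helper48.ROK (nrm nrm_lit nrm_fc volC_res)
open Pool.Agent.Helper7.RD (volC volCO volC_eq volC_le_of volCO_le)
open Pool.Agent.Helper18.SRT (le_volCO)
open Pool.Agent.Helper29.MX

noncomputable section

variable {S T : Sp} {M D : ℕ} {E : ℕ → ℕ} {ι κ : Type}

/-- the trace of the gradient form from the quadratic form -/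
theorem gam_le_of {r : ℝ} {A : Matrix (Mon M D) (Mon M D) ℝ} {p : Fin M → ℝ} {C : ℝ}
    (h : ∀ e : Fin M → ℝ, e ⬝ᵥ ((1 + Jq r A p) *ᵥ e) ≤ C * (e ⬝ᵥ e)) : gam r A p ≤ M * C := by
  have h1 : ∀ i : Fin M, Jq r A p i i ≤ C := by
    intro i
    have h2 := h (Pi.single i 1)
    have e1 : (Pi.single i 1 : Fin M → ℝ) ⬝ᵥ ((1 + Jq r A p) *ᵥ Pi.single i 1) = 1 + Jq r A p i i := by
      rw [single_dotProduct, one_mul, mulVec_single_one]
      show (1 + Jq r A p) i i = _
      rw [Matrix.add_apply, Matrix.one_apply_eq]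
    have e2 : (Pi.single i 1 : Fin M → ℝ) ⬝ᵥ Pi.single i 1 = 1 := by
      rw [single_dotProduct, Pi.single_eq_same, one_mul]
    rw [e1, e2, mul_one] at h2
    linarith
  have h2 : gam r A p = ∑ i, Jq r A p i i := by
    unfold gam
    exact Finset.sum_congr rfl fun i _ => (Jq_apply r A p i i).symm
  rw [h2]
  refine (Finset.sum_le_card_nsmul _ _ _ fun i _ => h1 i).trans (le_of_eq ?_)
  rw [nsmul_eq_mul, Finset.card_univ, Fintype.card_fin]

/-- bounded gradients in the form of `Spd` -/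
theorem gam_of_GrB {Q : S.VV M} {x : ∀ k, FD (S.F k) (Mon M D)} {u : ℝ} (h : GrB Q x u) (e : ℝ) (he : 0 < e) :
    Tendsto (fun k => (x k).l.T.pb (fun ω => ¬ gam (S.dl 1 k) ((x k).g ω) (Q.v k ((x k).l.p.π ω)) ≤
      2 ^ (2 * (1 - u + e) * (S.F k).n))) UF (𝓝 0) := by
  obtain ⟨K, hK, hT⟩ := h
  have hT' : Tendsto (fun k => (x k).l.T.pb (fun ω => ¬ ∀ e : Fin M → ℝ,
    e ⬝ᵥ ((1 + Jq (S.dl 1 k) ((x k).g ω) (Q.v k ((x k).l.p.π ω))) *ᵥ e) ≤
      K k * (S.dl u k / S.dl 1 k) ^ 2 * (e ⬝ᵥ e))) UF (𝓝 0) := hT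
  have h2e : 0 < 2 * e := by linarith
  refine squeeze_zero' (Eventually.of_forall fun k => (x k).l.T.pb_nonneg _) ?_ hT'
  filter_upwards [((S.Sub_const (by positivity : (0 : ℝ) ≤ M)).mul hK).eventually_le h2e] with k hk
  refine FSp.pb_mono (x k).l.T ?_
  intro ω _ h3 h4
  apply h3
  have hn := (S.F k).pos
  have h5 := gam_le_of h4
  refine h5.trans ?_
  have e1 : (S.dl u k / S.dl 1 k) ^ 2 = 2 ^ (2 * (1 - u) * (S.F k).n) := by
    unfold Sp.dl
    rw [← Real.rpow_sub (by norm_num), ← Real.rpow_natCast, ← Real.rpow_mul (by norm_num)]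
    congr 1
    push_cast
    ring
  rw [e1]
  have e2 : (2 : ℝ) ^ (2 * (1 - u + e) * (S.F k).n) = 2 ^ (2 * e * (S.F k).n) * 2 ^ (2 * (1 - u) * (S.F k).n) := by
    rw [← Real.rpow_add (by norm_num)]
    congr 1
    ring
  rw [e2, ← mul_assoc]
  exact mul_le_mul_of_nonneg_right (by linarith) (by positivity)

/-- SPEED OF THE VOLUME, one degree, from one K-form with bounded gradients and the least volume -/
theorem volK_speedG [Finite ι] (s : MSys S M E ι) {R : Rsl S} (hP : Pt s R) (hD : 1 ≤ D) {c c' u : ℝ}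
    (h0 : 0 ≤ c) (hc1 : c < 1) (hcc : c ≤ c') {x : ∀ k, FD (S.F k) (Mon M D)} (hx : KAd s R D c x)
    (hu : GrB s.Q x u) : volK s R D c' + M * min (c' - c) u ≤ vol s.Q D x := by
  set R' := nrm R s.Q with hR'
  have h := nrm_fc (R := R) (Q := s.Q) hP
  have e1 : ∀ c : ℝ, volK s R D c = volC (KC R') (cnA s (dp R') c) s.Q D := fun c => by
    rw [volC_res h, volK_eq, cndR_eq]
  have hx' : (gaq s.Q D).AdfK (KC R') (cnA s (dp R') c) x := by
    refine (Pool.Agent.Helper48.ROK.adfK_res (s := s) h).mpr ?_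
    have h2 := hx
    unfold KAd at h2
    rwa [cndR_eq] at h2
  rw [e1]
  obtain ⟨y, hy⟩ := (gaq s.Q D).exists_optfK (KC R') (cnA s (dp R') c')
  rw [volC_eq hy]
  have h3 := vol_speedD s (nrm_lit R s.Q) (B0 := R') (fun k ω ω' r => ker_cell (nrm_lit R s.Q k r)) hD h0 hc1 hcc
    hx' hy (Γ := 1 - u) fun e he => gam_of_GrB hu e he
  rwa [sub_sub_cancel] at h3

/-- SPEED OF THE VOLUME, all degrees -/
theorem volKO_speedG [Finite ι] (s : MSys S M E ι) {R : Rsl S} (hP : Pt s R) (hD : 1 ≤ D) {c c' u : ℝ}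
    (h0 : 0 ≤ c) (hc1 : c < 1) (hcc : c ≤ c') {x : ∀ k, FD (S.F k) (Mon M D)} (hx : KAd s R D c x)
    (hv : vol s.Q D x = volKO s R c) (hu : GrB s.Q x u) : volKO s R c' + M * min (c' - c) u ≤ volKO s R c := by
  have h1 := volK_speedG s hP hD h0 hc1 hcc hx hu
  rw [← hv]
  linarith [volKO_le_volK s R D c']

end

end Pool.Agent.Helper89.NUM
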